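import Pool.Agent.H860R2.FSigma

/-!
`S_1(Γ, Ω)` is hereditary for `F_σ` subsets.
-/

set_option autoImplicit false

open Set

namespace Pool.Agent.Results.MP_26524f_gt.SOneHereditary

open Pool.Agent.H860R2.FSigma

/-- For all sets of reals `Y ⊆ X` such that `Y` is a countable union of sets closed in `X`: if `X`
satisfies `S_1(Γ, Ω)`, then so does `Y`. -/
theorem result : ∀ X Y : Set ℝ,
    (∃ C : ℕ → Set X, (∀ n, IsClosed (C n)) ∧ Y = ⋃ n, (Subtype.val '' C n : Set ℝ)) →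
    S1 (Gamma X) (Omega X) → S1 (Gamma Y) (Omega Y) := by
  rintro X Y ⟨C, hC, hY⟩ h
  have hYX : Y ⊆ X := by
    rw [hY]
    intro y hy
    obtain ⟨n, z, _, rfl⟩ := mem_iUnion.1 hy
    exact z.2
  refine s1_fsigma (f := inclusion hYX) (Topology.IsEmbedding.inclusion hYX).isInducing C hC ?_ h
  ext x
  simp only [mem_range, mem_iUnion]
  constructor
  · rintro ⟨y, rfl⟩
    have hy : (y : ℝ) ∈ ⋃ n, (Subtype.val '' C n : Set ℝ) := hY ▸ y.2
    obtain ⟨n, z, hz, hzy⟩ := mem_iUnion.1 hy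
    refine ⟨n, ?_⟩
    have : inclusion hYX y = z := Subtype.ext hzy.symm
    rw [this]; exact hz
  · rintro ⟨n, hn⟩
    have hx : (x : ℝ) ∈ Y := by
      rw [hY]
      exact mem_iUnion.2 ⟨n, x, hn, rfl⟩
    exact ⟨⟨x, hx⟩, rfl⟩

end Pool.Agent.Results.MP_26524f_gt.SOneHereditary
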